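import Pool.Agent.Q91.PT.Stm

/-!
# Project PT (helper91), job DIF: all differences of the area distribution
-/

set_option autoImplicit false

namespace Pool.Agent.Q182.PT.DIF

open Finset Pool.Agent.Q91.PT
open scoped Classical

noncomputable section

/-- the binomial distribution as a function on the integers -/
def fb (K : ℕ) (m : ℤ) : ℝ := if 0 ≤ m then (K.choose m.toNat : ℝ) / 2 ^ K else 0

theorem inner (K : ℕ) (β a : ℤ) :
    (∑ j ∈ range (K + 1), (K.choose j : ℝ) * (if β + (j : ℤ) = a then (1 : ℝ) else 0)) / 2 ^ K =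
      fb K (a - β) := by
  unfold fb
  by_cases h : 0 ≤ a - β
  · rw [if_pos h]
    congr 1
    obtain ⟨m, hm⟩ := Int.eq_ofNat_of_zero_le h
    have hm' : (a - β).toNat = m := by rw [hm]; rfl
    rw [hm']
    have hiff : ∀ j : ℕ, (β + (j : ℤ) = a) ↔ j = m := by
      intro j
      constructor
      · intro hj
        omega
      · intro hj
        omega
    simp only [hiff, mul_ite, mul_one, mul_zero]
    rw [Finset.sum_ite_eq']
    split_ifs with hmem
    · rfl
    · rw [Finset.mem_range, not_lt] at hmem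
      rw [Nat.choose_eq_zero_of_lt (by omega)]
      simp
  · rw [if_neg h]
    have hz : ∀ j ∈ range (K + 1),
        (K.choose j : ℝ) * (if β + (j : ℤ) = a then (1 : ℝ) else 0) = 0 := by
      intro j _
      rw [if_neg (by omega), mul_zero]
    rw [Finset.sum_eq_zero hz, zero_div]

theorem NA_eq (hA : S_abs) {α : Type} (X : Finset α) (F : α → Finset ℕ) (g : α → ℕ → α)
    (b : α → ℕ → Prop) (A : α → ℤ) (hF : Flips X F g b A) (a : ℤ) :
    NA X A a = ∑ x ∈ X, fb (F x).card (a - (A x - Dn F b x)) := by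
  have h := hA α ℝ X F g b A hF (fun β j _ => if β + (j : ℤ) = a then (1 : ℝ) else 0)
  have h2 : NA X A a = ∑ x ∈ X, (if A x - (Dn F b x : ℤ) + (Dn F b x : ℤ) = a then (1 : ℝ) else 0) := by
    unfold NA
    simp only [sub_add_cancel]
    rw [Finset.sum_boole]
  rw [h2, h]
  refine Finset.sum_congr rfl fun x _ => ?_
  exact inner _ _ _

theorem t (hA : S_abs) (hB : S_bin) : S_dif := by
  intro k
  obtain ⟨C, hC, hCb⟩ := hB k
  refine ⟨C, hC, ?_⟩
  intro α X F g b A hF κ hκ hX S
  have hdk : ∀ a : ℤ, dk k (NA X A) a = ∑ x ∈ X, ∑ j ∈ range (k + 1), (-1) ^ j * (k.choose j : ℝ) *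
      fb (F x).card (a - (A x - Dn F b x) + j) := by
    intro a
    unfold dk
    rw [Finset.sum_comm]
    refine Finset.sum_congr rfl fun j _ => ?_
    rw [NA_eq hA X F g b A hF, Finset.mul_sum]
    refine Finset.sum_congr rfl fun x _ => ?_
    congr 2
    ring
  have hx : ∀ x ∈ X, ∑ a ∈ S, |∑ j ∈ range (k + 1), (-1) ^ j * (k.choose j : ℝ) *
      fb (F x).card (a - (A x - Dn F b x) + j)| ≤ C * κ ^ (-(k : ℝ) / 2) := by
    intro x hx
    have hK : κ ≤ ((F x).card : ℝ) := hX x hx
    have hK1 : 1 ≤ (F x).card := by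
      have : (0 : ℝ) < ((F x).card : ℝ) := hκ.trans_le hK
      exact_mod_cast this
    have h1 := hCb (F x).card hK1 (S.image fun a => a - (A x - Dn F b x))
    rw [Finset.sum_image (by
      intro u _ v _ huv
      have : u - (A x - (Dn F b x : ℤ)) = v - (A x - (Dn F b x : ℤ)) := huv
      linarith)] at h1
    have h2 : C * ((F x).card : ℝ) ^ (-(k : ℝ) / 2) ≤ C * κ ^ (-(k : ℝ) / 2) := by
      refine mul_le_mul_of_nonneg_left ?_ hC.le
      refine Real.rpow_le_rpow_of_nonpos hκ hK ?_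
      have : (0 : ℝ) ≤ k := Nat.cast_nonneg k
      linarith
    exact h1.trans h2
  calc ∑ a ∈ S, |dk k (NA X A) a|
      ≤ ∑ a ∈ S, ∑ x ∈ X, |∑ j ∈ range (k + 1), (-1) ^ j * (k.choose j : ℝ) *
          fb (F x).card (a - (A x - Dn F b x) + j)| := by
        refine Finset.sum_le_sum fun a _ => ?_
        rw [hdk a]
        exact Finset.abs_sum_le_sum_abs _ _
    _ = ∑ x ∈ X, ∑ a ∈ S, |∑ j ∈ range (k + 1), (-1) ^ j * (k.choose j : ℝ) *
          fb (F x).card (a - (A x - Dn F b x) + j)| := Finset.sum_comm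
    _ ≤ ∑ x ∈ X, C * κ ^ (-(k : ℝ) / 2) := Finset.sum_le_sum hx
    _ = C * X.card * κ ^ (-(k : ℝ) / 2) := by
        rw [Finset.sum_const, nsmul_eq_mul]
        ring

end

end Pool.Agent.Q182.PT.DIF
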